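import Mathlib

/-!
# Partial summation against `1 / (m log m)` (written by helper79 for helper86)
-/

set_option autoImplicit false

open Finset MeasureTheory

namespace Pool.Agent.L5helper86.RB

/-- the log-weighted sum of `w` up to `e ^ v` -/
noncomputable def W1 (w : ℕ → ℝ) (v : ℝ) : ℝ := ∑ m ∈ Icc 1 ⌊Real.exp v⌋₊, w m * (v - Real.log m)

/-- the second derivative of `e ^ (-v) / v` -/
noncomputable def gg (v : ℝ) : ℝ := Real.exp (-v) * (1 / v + 2 / v ^ 2 + 2 / v ^ 3)

namespace A1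

lemma gg_cont {L M : ℝ} (hL : 1 ≤ L) : ContinuousOn gg (Set.Icc L M) := by
  unfold gg
  have h : ∀ x ∈ Set.Icc L M, x ≠ 0 := fun x hx => by have := hx.1; intro h0; rw [h0] at this; linarith
  apply ContinuousOn.mul (by fun_prop)
  apply ContinuousOn.add
  · apply ContinuousOn.add
    · exact ContinuousOn.div (by fun_prop) (by fun_prop) h
    · exact ContinuousOn.div (by fun_prop) (by fun_prop) (fun x hx => pow_ne_zero _ (h x hx))
  · exact ContinuousOn.div (by fun_prop) (by fun_prop) (fun x hx => pow_ne_zero _ (h x hx))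

lemma gg_nonneg {v : ℝ} (hv : 0 ≤ v) : 0 ≤ gg v := by
  unfold gg
  positivity

/-- the cut-off form of `W1` -/
noncomputable def WK (w : ℕ → ℝ) (K : ℕ) (v : ℝ) : ℝ := ∑ m ∈ Icc 1 K, w m * max 0 (v - Real.log m)

lemma WK_cont (w : ℕ → ℝ) (K : ℕ) : Continuous (WK w K) := by
  unfold WK
  fun_prop

lemma W1_eq (w : ℕ → ℝ) {v M : ℝ} (hv : v ≤ M) : W1 w v = WK w ⌊Real.exp M⌋₊ v := by
  unfold W1 WK
  have hsub : Icc 1 ⌊Real.exp v⌋₊ ⊆ Icc 1 ⌊Real.exp M⌋₊ :=
    Icc_subset_Icc_right (Nat.floor_le_floor (Real.exp_le_exp.2 hv))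
  rw [← Finset.sum_subset hsub]
  · refine Finset.sum_congr rfl fun m hm => ?_
    rw [mem_Icc] at hm
    have h1 : (0 : ℝ) < m := by exact_mod_cast hm.1
    have h2 : (m : ℝ) ≤ Real.exp v := (Nat.le_floor_iff (Real.exp_pos _).le).1 hm.2
    have h3 : Real.log m ≤ v := by
      rw [← Real.log_exp v]
      exact Real.log_le_log h1 h2
    rw [max_eq_right (by linarith)]
  · intro m hm hm'
    rw [mem_Icc] at hm hm'
    have h1 : (0 : ℝ) < m := by exact_mod_cast hm.1
    have h2 : Real.exp v < m := by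
      rw [← Nat.floor_lt (Real.exp_pos _).le]
      by_contra hcon
      exact hm' ⟨hm.1, not_lt.1 hcon⟩
    have h3 : v < Real.log m := by
      rw [← Real.log_exp v]
      exact Real.log_lt_log (Real.exp_pos _) h2
    rw [max_eq_left (by linarith), mul_zero]

/-- a primitive of `(v - u) gg v` -/
noncomputable def H (u v : ℝ) : ℝ := -(v - u) * (Real.exp (-v) * (1 / v + 1 / v ^ 2)) - Real.exp (-v) / v

lemma H_deriv (u : ℝ) {v : ℝ} (hv : 0 < v) : HasDerivAt (H u) (gg v * (v - u)) v := by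
  have e : HasDerivAt (fun v : ℝ => Real.exp (-v)) (-Real.exp (-v)) v := by
    have h := (Real.hasDerivAt_exp (-v)).comp v (hasDerivAt_neg v)
    refine h.congr_deriv ?_
    ring
  have i1 : HasDerivAt (fun v : ℝ => 1 / v) (-1 / v ^ 2) v := by
    have h := (hasDerivAt_const v (1 : ℝ)).div (hasDerivAt_id v) hv.ne'
    refine h.congr_deriv ?_
    simp
  have i2 : HasDerivAt (fun v : ℝ => 1 / v ^ 2) (-2 / v ^ 3) v := by
    have h := (hasDerivAt_const v (1 : ℝ)).div (hasDerivAt_pow 2 v) (pow_ne_zero 2 hv.ne')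
    refine h.congr_deriv ?_
    field_simp
    simp
    ring
  have l : HasDerivAt (fun v : ℝ => -(v - u)) (-1) v := ((hasDerivAt_id v).sub_const u).neg
  have d : HasDerivAt (fun v : ℝ => Real.exp (-v) / v)
      ((-Real.exp (-v) * v - Real.exp (-v) * 1) / v ^ 2) v := e.div (hasDerivAt_id v) hv.ne'
  have t := (l.mul (e.mul (i1.add i2))).sub d
  refine t.congr_deriv ?_
  unfold gg
  simp only [Pi.add_apply, Pi.mul_apply]
  field_simp
  ring

lemma int_H (u : ℝ) {a b : ℝ} (ha : 1 ≤ a) (hab : a ≤ b) :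
    ∫ v in a..b, gg v * (v - u) = H u b - H u a := by
  apply intervalIntegral.integral_eq_sub_of_hasDerivAt
  · intro x hx
    rw [Set.uIcc_of_le hab] at hx
    exact H_deriv u (by linarith [hx.1])
  · apply ContinuousOn.intervalIntegrable
    rw [Set.uIcc_of_le hab]
    exact (gg_cont ha).mul (by fun_prop)

/-- the integral for one term -/
lemma int_max {u L M : ℝ} (hL : 1 ≤ L) (hLM : L ≤ M) (hu : u ≤ M) :
    ∫ v in L..M, gg v * max 0 (v - u) = H u M - H u (max L u) := by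
  have hm : max L u ≤ M := max_le hLM hu
  have c : ∀ a b : ℝ, 1 ≤ a → a ≤ b → IntervalIntegrable (fun v => gg v * max 0 (v - u)) volume a b := by
    intro a b ha hab
    apply ContinuousOn.intervalIntegrable
    rw [Set.uIcc_of_le hab]
    exact (gg_cont ha).mul (by fun_prop)
  rw [← intervalIntegral.integral_add_adjacent_intervals (c L (max L u) hL (le_max_left _ _))
    (c (max L u) M (hL.trans (le_max_left _ _)) hm)]
  have h1 : ∫ v in L..(max L u), gg v * max 0 (v - u) = 0 := by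
    rcases le_total u L with h | h
    · rw [max_eq_left h, intervalIntegral.integral_same]
    · rw [max_eq_right h]
      have : ∫ v in L..u, gg v * max 0 (v - u) = ∫ v in L..u, (0 : ℝ) := by
        apply intervalIntegral.integral_congr
        intro v hv
        rw [Set.uIcc_of_le h] at hv
        have : max 0 (v - u) = 0 := max_eq_left (by linarith [hv.2])
        simp [this]
      rw [this]
      simp
  have h2 : ∫ v in (max L u)..M, gg v * max 0 (v - u) = ∫ v in (max L u)..M, gg v * (v - u) := by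
    apply intervalIntegral.integral_congr
    intro v hv
    rw [Set.uIcc_of_le hm] at hv
    have : max 0 (v - u) = v - u := max_eq_right (by linarith [hv.1, le_max_right L u])
    simp [this]
  rw [h1, h2, zero_add, int_H u (hL.trans (le_max_left _ _)) hm]

lemma int_WK (w : ℕ → ℝ) {L M : ℝ} (hL : 1 ≤ L) (hLM : L ≤ M) :
    ∫ v in L..M, gg v * W1 w v =
      ∑ m ∈ Icc 1 ⌊Real.exp M⌋₊, w m * (H (Real.log m) M - H (Real.log m) (max L (Real.log m))) := by
  have h1 : ∫ v in L..M, gg v * W1 w v =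
      ∫ v in L..M, ∑ m ∈ Icc 1 ⌊Real.exp M⌋₊, w m * (gg v * max 0 (v - Real.log m)) := by
    apply intervalIntegral.integral_congr
    intro v hv
    rw [Set.uIcc_of_le hLM] at hv
    simp only
    rw [W1_eq w hv.2]
    unfold WK
    rw [mul_sum]
    exact sum_congr rfl fun m _ => by ring
  rw [h1, intervalIntegral.integral_finsetSum]
  · refine sum_congr rfl fun m hm => ?_
    rw [intervalIntegral.integral_const_mul, int_max hL hLM]
    rw [mem_Icc] at hm
    have h1 : (0 : ℝ) < m := by exact_mod_cast hm.1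
    have h2 : (m : ℝ) ≤ Real.exp M := (Nat.le_floor_iff (Real.exp_pos _).le).1 hm.2
    rw [← Real.log_exp M]
    exact Real.log_le_log h1 h2
  · intro m _
    apply ContinuousOn.intervalIntegrable
    rw [Set.uIcc_of_le hLM]
    exact ContinuousOn.mul (by fun_prop) ((gg_cont hL).mul (by fun_prop))

/-- the elementary bound for `-H` -/
lemma H_bound {u v : ℝ} (hv : 1 ≤ v) (hu : u ≤ v) :
    -H u v ≤ 4 * Real.exp (-v) / v * (v + 1 - u) := by
  unfold H
  have hE := Real.exp_pos (-v)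
  have h0 : 0 < v := by linarith
  have h1 : 1 / v ^ 2 ≤ 1 / v := by
    apply one_div_le_one_div_of_le h0
    nlinarith
  have h2 : (v - u) * (Real.exp (-v) * (1 / v + 1 / v ^ 2)) ≤ (v - u) * (Real.exp (-v) * (2 * (1 / v))) := by
    apply mul_le_mul_of_nonneg_left _ (by linarith)
    apply mul_le_mul_of_nonneg_left _ hE.le
    linarith
  have h3 : 0 ≤ Real.exp (-v) * (1 / v) := by positivity
  have e1 : Real.exp (-v) / v = Real.exp (-v) * (1 / v) := by ring
  have e2 : 4 * Real.exp (-v) / v * (v + 1 - u) = 4 * (Real.exp (-v) * (1 / v)) * (v + 1 - u) := by ring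
  rw [e1, e2]
  have h4 : (v - u) * (Real.exp (-v) * (2 * (1 / v))) = 2 * (Real.exp (-v) * (1 / v)) * (v - u) := by ring
  rw [h4] at h2
  nlinarith [mul_nonneg h3 (show (0 : ℝ) ≤ v - u by linarith)]

lemma H_nonpos {u v : ℝ} (hv : 1 ≤ v) (hu : u ≤ v) : H u v ≤ 0 := by
  unfold H
  have hE := Real.exp_pos (-v)
  have h0 : 0 < v := by linarith
  have h1 : 0 ≤ (v - u) * (Real.exp (-v) * (1 / v + 1 / v ^ 2)) := by
    have : 0 ≤ v - u := by linarith
    positivity
  have h2 : 0 ≤ Real.exp (-v) / v := by positivity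
  linarith

lemma H_self (u : ℝ) : H u u = -(Real.exp (-u) / u) := by
  unfold H
  ring

lemma term_eq {m : ℕ} (hm : 1 ≤ m) (w : ℝ) :
    w / (m * Real.log m) = w * (Real.exp (-Real.log m) / Real.log m) := by
  have h1 : (0 : ℝ) < m := by exact_mod_cast hm
  rw [Real.exp_neg, Real.exp_log h1]
  field_simp

lemma mem_Ioc' {L M : ℝ} {m : ℕ} (hm : m ∈ Ioc ⌊Real.exp L⌋₊ ⌊Real.exp M⌋₊) :
    1 ≤ m ∧ L < Real.log m ∧ Real.log m ≤ M := by
  rw [mem_Ioc] at hm
  have h1 : Real.exp L < m := (Nat.floor_lt (Real.exp_pos _).le).1 hm.1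
  have h0 : 1 ≤ m := by omega
  have h0' : (0 : ℝ) < m := by exact_mod_cast h0
  have h2 : (m : ℝ) ≤ Real.exp M := (Nat.le_floor_iff (Real.exp_pos _).le).1 hm.2
  refine ⟨h0, ?_, ?_⟩
  · rw [← Real.log_exp L]
    exact Real.log_lt_log (Real.exp_pos _) h1
  · rw [← Real.log_exp M]
    exact Real.log_le_log h0' h2

lemma mem_Icc' {M : ℝ} {m : ℕ} (hm : m ∈ Icc 1 ⌊Real.exp M⌋₊) : Real.log m ≤ M := by
  rw [mem_Icc] at hm
  have h0' : (0 : ℝ) < m := by exact_mod_cast hm.1
  have h2 : (m : ℝ) ≤ Real.exp M := (Nat.le_floor_iff (Real.exp_pos _).le).1 hm.2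
  rw [← Real.log_exp M]
  exact Real.log_le_log h0' h2

lemma floor_mono {L M : ℝ} (h : L ≤ M) : ⌊Real.exp L⌋₊ ≤ ⌊Real.exp M⌋₊ :=
  Nat.floor_le_floor (Real.exp_le_exp.2 h)

/-- a partial sum of `W1` at `v + 1` -/
lemma part_le (w : ℕ → ℝ) (hw : ∀ m, 0 ≤ w m) (v : ℝ) (s : Finset ℕ) (hs : s ⊆ Icc 1 ⌊Real.exp v⌋₊) :
    ∑ m ∈ s, w m * (v + 1 - Real.log m) ≤ W1 w (v + 1) := by
  unfold W1
  apply sum_le_sum_of_subset_of_nonneg
  · exact hs.trans (Icc_subset_Icc_right (floor_mono (by linarith)))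
  · intro m hm _
    have := mem_Icc' hm
    exact mul_nonneg (hw m) (by linarith)

end A1

open A1

theorem A1_upper (w : ℕ → ℝ) (hw : ∀ m, 0 ≤ w m) (L M : ℝ) (hL : 1 ≤ L) (hLM : L ≤ M) :
    ∑ m ∈ Ioc ⌊Real.exp L⌋₊ ⌊Real.exp M⌋₊, w m / (m * Real.log m) ≤
      (∫ v in L..M, gg v * W1 w v) + 4 * Real.exp (-M) / M * W1 w (M + 1) := by
  have hM : 1 ≤ M := hL.trans hLM
  have hC : 0 ≤ 4 * Real.exp (-M) / M := by positivity
  have hsub : Ioc ⌊Real.exp L⌋₊ ⌊Real.exp M⌋₊ ⊆ Icc 1 ⌊Real.exp M⌋₊ := by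
    intro m hm
    have := (mem_Ioc' hm).1
    rw [mem_Ioc] at hm
    rw [mem_Icc]
    exact ⟨this, hm.2⟩
  calc ∑ m ∈ Ioc ⌊Real.exp L⌋₊ ⌊Real.exp M⌋₊, w m / (m * Real.log m)
      ≤ ∑ m ∈ Ioc ⌊Real.exp L⌋₊ ⌊Real.exp M⌋₊,
          (w m * (H (Real.log m) M - H (Real.log m) (max L (Real.log m))) +
            4 * Real.exp (-M) / M * (w m * (M + 1 - Real.log m))) := by
        refine sum_le_sum fun m hm => ?_
        obtain ⟨h1, h2, h3⟩ := mem_Ioc' hm
        rw [term_eq h1, max_eq_right h2.le, H_self]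
        have := mul_le_mul_of_nonneg_left (H_bound hM h3) (hw m)
        nlinarith
    _ = ∑ m ∈ Ioc ⌊Real.exp L⌋₊ ⌊Real.exp M⌋₊,
          w m * (H (Real.log m) M - H (Real.log m) (max L (Real.log m))) +
          4 * Real.exp (-M) / M * ∑ m ∈ Ioc ⌊Real.exp L⌋₊ ⌊Real.exp M⌋₊, w m * (M + 1 - Real.log m) := by
        rw [sum_add_distrib, mul_sum]
    _ ≤ _ := by
        apply add_le_add
        · rw [int_WK w hL hLM]
          apply sum_le_sum_of_subset_of_nonneg hsub
          intro m hm _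
          have h3 := mem_Icc' hm
          apply mul_nonneg (hw m)
          rw [← int_max hL hLM h3]
          apply intervalIntegral.integral_nonneg hLM
          intro v hv
          exact mul_nonneg (gg_nonneg (by linarith [hv.1])) (le_max_left _ _)
        · exact mul_le_mul_of_nonneg_left (part_le w hw M _ hsub) hC

theorem A1_lower (w : ℕ → ℝ) (hw : ∀ m, 0 ≤ w m) (L M : ℝ) (hL : 1 ≤ L) (hLM : L ≤ M) :
    (∫ v in L..M, gg v * W1 w v) ≤
      (∑ m ∈ Ioc ⌊Real.exp L⌋₊ ⌊Real.exp M⌋₊, w m / (m * Real.log m)) + 4 * Real.exp (-L) / L * W1 w (L + 1) := by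
  have hM : 1 ≤ M := hL.trans hLM
  have hC : 0 ≤ 4 * Real.exp (-L) / L := by positivity
  have hfl := floor_mono hLM
  have hsplit : Icc 1 ⌊Real.exp M⌋₊ = Ioc ⌊Real.exp L⌋₊ ⌊Real.exp M⌋₊ ∪ Icc 1 ⌊Real.exp L⌋₊ := by
    ext m
    simp only [mem_Icc, mem_union, mem_Ioc]
    omega
  have hdisj : Disjoint (Ioc ⌊Real.exp L⌋₊ ⌊Real.exp M⌋₊) (Icc 1 ⌊Real.exp L⌋₊) := by
    rw [Finset.disjoint_left]
    intro m h1 h2
    rw [mem_Ioc] at h1
    rw [mem_Icc] at h2
    omega
  rw [int_WK w hL hLM, hsplit, sum_union hdisj]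
  apply add_le_add
  · refine sum_le_sum fun m hm => ?_
    obtain ⟨h1, h2, h3⟩ := mem_Ioc' hm
    rw [term_eq h1, max_eq_right h2.le, H_self]
    apply mul_le_mul_of_nonneg_left _ (hw m)
    have := H_nonpos hM h3
    linarith
  · calc ∑ m ∈ Icc 1 ⌊Real.exp L⌋₊, w m * (H (Real.log m) M - H (Real.log m) (max L (Real.log m)))
        ≤ ∑ m ∈ Icc 1 ⌊Real.exp L⌋₊, 4 * Real.exp (-L) / L * (w m * (L + 1 - Real.log m)) := by
          refine sum_le_sum fun m hm => ?_
          have h3 := mem_Icc' hm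
          rw [max_eq_left h3]
          have h4 := H_nonpos hM (h3.trans hLM)
          have h5 := H_bound hL h3
          have := mul_le_mul_of_nonneg_left (show H (Real.log m) M - H (Real.log m) L ≤
            4 * Real.exp (-L) / L * (L + 1 - Real.log m) by linarith) (hw m)
          linarith
      _ = 4 * Real.exp (-L) / L * ∑ m ∈ Icc 1 ⌊Real.exp L⌋₊, w m * (L + 1 - Real.log m) := by
          rw [mul_sum]
      _ ≤ _ := mul_le_mul_of_nonneg_left (part_le w hw L _ (Subset.refl _)) hC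

theorem A1_int (w w' : ℕ → ℝ) (c : ℝ) (L M : ℝ) (hL : 1 ≤ L) (hLM : L ≤ M) (B : ℝ → ℝ) (hB : ContinuousOn B (Set.Icc L M))
    (h : ∀ v, L ≤ v → v ≤ M → W1 w v ≤ c * W1 w' v + B v) :
    (∫ v in L..M, gg v * W1 w v) ≤ c * (∫ v in L..M, gg v * W1 w' v) + ∫ v in L..M, gg v * B v := by
  have key : ∀ x : ℕ → ℝ, IntervalIntegrable (fun v => gg v * W1 x v) volume L M := by
    intro x
    apply ContinuousOn.intervalIntegrable
    rw [Set.uIcc_of_le hLM]
    apply (gg_cont hL).mul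
    apply (WK_cont x ⌊Real.exp M⌋₊).continuousOn.congr
    intro v hv
    exact W1_eq x hv.2
  have keyB : IntervalIntegrable (fun v => gg v * B v) volume L M := by
    apply ContinuousOn.intervalIntegrable
    rw [Set.uIcc_of_le hLM]
    exact (gg_cont hL).mul hB
  rw [← intervalIntegral.integral_const_mul, ← intervalIntegral.integral_add ((key w').const_mul c) keyB]
  apply intervalIntegral.integral_mono_on hLM (key w) (((key w').const_mul c).add keyB)
  intro v hv
  have h1 := mul_le_mul_of_nonneg_left (h v hv.1 hv.2) (gg_nonneg (show 0 ≤ v by linarith [hv.1]))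
  linarith

end Pool.Agent.L5helper86.RB
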