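import Pool.Agent.L5helper86.RB.Base

/-!
# Prime powers in the lower bound over `p ≡ 1 (mod n)`

The proper prime powers `m > (2 N)^3` contribute `O(1)` to `(n - 1) ∑ Λ(m) / (m log m)`, for a prime `n` in `(N, 2 N]`.
-/

set_option autoImplicit false

namespace Pool.Agent.L5helper86.RB

open Finset

/-- a proper prime power is `a ^ 2 * b ^ 3` -/
lemma pp_form {m : ℕ} (h1 : IsPrimePow m) (h2 : ¬ m.Prime) :
    ∃ a b : ℕ, 1 ≤ a ∧ 1 ≤ b ∧ m = a ^ 2 * b ^ 3 := by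
  obtain ⟨p, k, hp, hk, rfl⟩ := (isPrimePow_nat_iff m).1 h1
  have hk2 : 2 ≤ k := by
    by_contra h
    have : k = 1 := by omega
    subst this
    exact h2 (by simpa using hp)
  rcases Nat.even_or_odd' k with ⟨c, hc | hc⟩
  · refine ⟨p ^ c, 1, Nat.one_le_pow _ _ hp.pos, le_refl _, ?_⟩
    rw [hc, one_pow, mul_one, ← pow_mul, mul_comm]
  · refine ⟨p ^ (c - 1), p, Nat.one_le_pow _ _ hp.pos, hp.one_lt.le, ?_⟩
    rw [← pow_mul, ← pow_add]
    congr 1
    omega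

/-- the summand of the convergent double series -/
noncomputable def ppf (x : ℕ × ℕ) : ℝ := (x.1 : ℝ) ^ (-(4 / 3) : ℝ) * (x.2 : ℝ) ^ (-2 : ℝ)

lemma ppf_summable : Summable ppf := by
  have h1 : Summable fun n : ℕ => (n : ℝ) ^ (-(4 / 3) : ℝ) := Real.summable_nat_rpow.2 (by norm_num)
  have h2 : Summable fun n : ℕ => (n : ℝ) ^ (-2 : ℝ) := Real.summable_nat_rpow.2 (by norm_num)
  exact h1.mul_of_nonneg h2 (fun n => by positivity) (fun n => by positivity)

lemma ppf_nonneg (x : ℕ × ℕ) : 0 ≤ ppf x := by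
  unfold ppf
  positivity

lemma ppf_eq {a b : ℕ} (ha : 1 ≤ a) (hb : 1 ≤ b) :
    (((a ^ 2 * b ^ 3 : ℕ) : ℝ)) ^ (-(2 / 3) : ℝ) = ppf (a, b) := by
  have ha' : (0 : ℝ) ≤ a := by positivity
  have hb' : (0 : ℝ) ≤ b := by positivity
  unfold ppf
  push_cast
  rw [Real.mul_rpow (by positivity) (by positivity), ← Real.rpow_natCast (a : ℝ) 2,
    ← Real.rpow_natCast (b : ℝ) 3, ← Real.rpow_mul ha', ← Real.rpow_mul hb']
  norm_num

/-- the sum over any finite set of proper prime powers -/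
lemma sum_pp_le (S : Finset ℕ) (hS : ∀ m ∈ S, IsPrimePow m ∧ ¬ m.Prime) :
    ∑ m ∈ S, (m : ℝ) ^ (-(2 / 3) : ℝ) ≤ ∑' x, ppf x := by
  classical
  have key : ∀ m : ℕ, ∃ x : ℕ × ℕ, m ∈ S → 1 ≤ x.1 ∧ 1 ≤ x.2 ∧ m = x.1 ^ 2 * x.2 ^ 3 := by
    intro m
    by_cases hm : m ∈ S
    · obtain ⟨a, b, h⟩ := pp_form (hS m hm).1 (hS m hm).2
      exact ⟨(a, b), fun _ => h⟩
    · exact ⟨(0, 0), fun h => absurd h hm⟩
  choose F hF using key
  have hinj : Set.InjOn F (S : Set ℕ) := by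
    intro m hm m' hm' h
    rw [(hF m hm).2.2, (hF m' hm').2.2, h]
  have : ∑ m ∈ S, (m : ℝ) ^ (-(2 / 3) : ℝ) = ∑ x ∈ S.image F, ppf x := by
    rw [Finset.sum_image hinj]
    refine Finset.sum_congr rfl fun m hm => ?_
    obtain ⟨h1, h2, h3⟩ := hF m hm
    have := ppf_eq h1 h2
    rw [← h3] at this
    exact this
  rw [this]
  exact ppf_summable.sum_le_tsum _ fun x _ => ppf_nonneg x

theorem primepow : ∃ C : ℝ, 0 < C ∧ ∀ N n : ℕ, n ∈ op N → ∀ L M : ℝ, 3 * Real.log (2 * N) ≤ L → L ≤ M →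
    ∑ m ∈ Ioc ⌊Real.exp L⌋₊ ⌊Real.exp M⌋₊,
      ((n : ℝ) - 1) * (if m % (2 * n) = 1 then ArithmeticFunction.vonMangoldt m else 0) / (m * Real.log m) ≤
    (∑ p ∈ (pz (Real.exp M)).filter (fun p => p % n = 1), ((n : ℝ) - 1) / p) + C := by
  classical
  refine ⟨∑' x, ppf x + 1, by have : 0 ≤ ∑' x, ppf x := tsum_nonneg ppf_nonneg; linarith, ?_⟩
  intro N n hn L M hL _
  obtain ⟨h1, hnp, hn2⟩ : n ∈ Ioc N (2 * N) ∧ n.Prime ∧ n ≠ 2 := by
    unfold op at hn
    simpa [mem_filter] using hn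
  obtain ⟨hNn, hn2N⟩ := mem_Ioc.1 h1
  have hN : 1 ≤ N := by omega
  have hn1 : (0 : ℝ) ≤ (n : ℝ) - 1 := by
    have : (1 : ℝ) ≤ n := by exact_mod_cast hnp.one_lt.le
    linarith
  have hN0 : (0 : ℝ) < 2 * N := by positivity
  have hnN : (n : ℝ) - 1 ≤ Real.exp (L / 3) := by
    have e1 : (n : ℝ) ≤ 2 * N := by exact_mod_cast hn2N
    have e2 : (2 * N : ℝ) = Real.exp (Real.log (2 * N)) := (Real.exp_log hN0).symm
    have e3 : Real.exp (Real.log (2 * N)) ≤ Real.exp (L / 3) := Real.exp_le_exp.2 (by linarith)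
    linarith
  have hexpL : 1 ≤ Real.exp L := by
    have : 0 ≤ Real.log (2 * N) := Real.log_nonneg (by
      have : (1 : ℝ) ≤ N := by exact_mod_cast hN
      linarith)
    exact Real.one_le_exp (by linarith)
  set I := Ioc ⌊Real.exp L⌋₊ ⌊Real.exp M⌋₊ with hI
  have hmem : ∀ m ∈ I, Real.exp L < m ∧ (m : ℝ) ≤ Real.exp M ∧ 2 ≤ m := by
    intro m hm
    obtain ⟨a, b⟩ := mem_Ioc.1 hm
    have h3 : Real.exp L < m := Nat.lt_of_floor_lt a
    refine ⟨h3, (Nat.le_floor_iff (Real.exp_pos M).le).1 b, ?_⟩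
    have : (1 : ℝ) < m := lt_of_le_of_lt hexpL h3
    exact_mod_cast this
  rw [← Finset.sum_filter_add_sum_filter_not I (fun m => m.Prime)]
  refine add_le_add ?_ ?_
  · -- primes
    have e1 : ∑ m ∈ I.filter (fun m => m.Prime),
        ((n : ℝ) - 1) * (if m % (2 * n) = 1 then ArithmeticFunction.vonMangoldt m else 0) / (m * Real.log m)
        = ∑ m ∈ (I.filter (fun m => m.Prime)).filter (fun m => m % (2 * n) = 1), ((n : ℝ) - 1) / m := by
      rw [Finset.sum_filter (fun m => m % (2 * n) = 1)]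
      refine Finset.sum_congr rfl fun m hm => ?_
      obtain ⟨hm1, hm2⟩ := mem_filter.1 hm
      split_ifs with hc
      · rw [ArithmeticFunction.vonMangoldt_apply_prime hm2]
        have hlog : Real.log m ≠ 0 := (Real.log_pos (by exact_mod_cast hm2.one_lt)).ne'
        rw [mul_comm (m : ℝ), mul_comm ((n : ℝ) - 1), mul_div_mul_left _ _ hlog]
      · simp
    rw [e1]
    refine Finset.sum_le_sum_of_subset_of_nonneg ?_ (fun m _ _ => by positivity)
    intro m hm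
    obtain ⟨hm1, hm2⟩ := mem_filter.1 hm
    obtain ⟨hm3, hm4⟩ := mem_filter.1 hm1
    refine mem_filter.2 ⟨mem_pz.2 ⟨hm4, (hmem m hm3).2.1⟩, ?_⟩
    rw [← Nat.mod_mod_of_dvd m (Dvd.intro_left 2 rfl : n ∣ 2 * n), hm2]
    exact Nat.mod_eq_of_lt hnp.one_lt
  · -- proper prime powers
    have e1 : ∑ m ∈ I.filter (fun m => ¬ m.Prime),
        ((n : ℝ) - 1) * (if m % (2 * n) = 1 then ArithmeticFunction.vonMangoldt m else 0) / (m * Real.log m)
        ≤ ∑ m ∈ (I.filter (fun m => ¬ m.Prime)).filter (fun m => IsPrimePow m), (m : ℝ) ^ (-(2 / 3) : ℝ) := by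
      rw [Finset.sum_filter (fun m => IsPrimePow m)]
      refine Finset.sum_le_sum fun m hm => ?_
      obtain ⟨hm1, hm2⟩ := mem_filter.1 hm
      obtain ⟨hm3, _, hm5⟩ := hmem m hm1
      have hm0 : (0 : ℝ) < m := by exact_mod_cast (by omega : 0 < m)
      have hlog : 0 < Real.log m := Real.log_pos (by exact_mod_cast (by omega : 1 < m))
      split_ifs with hc hpp hpp
      · have hΛ : ArithmeticFunction.vonMangoldt m ≤ Real.log m := ArithmeticFunction.vonMangoldt_le_log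
        have hΛ0 : 0 ≤ ArithmeticFunction.vonMangoldt m := ArithmeticFunction.vonMangoldt_nonneg
        have hpow : (m : ℝ) ^ (-(2 / 3) : ℝ) = (m : ℝ) ^ ((1 / 3) : ℝ) / m := by
          rw [show (-(2 / 3) : ℝ) = 1 / 3 - 1 by norm_num, Real.rpow_sub_one hm0.ne']
        have hexp : Real.exp (L / 3) ≤ (m : ℝ) ^ ((1 / 3) : ℝ) := by
          rw [Real.rpow_def_of_pos hm0]
          refine Real.exp_le_exp.2 ?_
          have : L ≤ Real.log m := (Real.le_log_iff_exp_le hm0).2 hm3.le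
          linarith
        rw [hpow, div_le_div_iff₀ (by positivity) hm0]
        have : ((n : ℝ) - 1) * ArithmeticFunction.vonMangoldt m ≤ (m : ℝ) ^ ((1 / 3) : ℝ) * Real.log m :=
          mul_le_mul (hnN.trans hexp) hΛ hΛ0 (by positivity)
        nlinarith
      · rw [ArithmeticFunction.vonMangoldt_eq_zero_iff.2 hpp]
        simp
      · simp only [mul_zero, zero_div]
        positivity
      · simp
    refine e1.trans ((sum_pp_le _ ?_).trans (by linarith))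
    intro m hm
    obtain ⟨hm1, hm2⟩ := mem_filter.1 hm
    exact ⟨hm2, (mem_filter.1 hm1).2⟩

end Pool.Agent.L5helper86.RB
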