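import Mathlib
import Pool.Agent.L5helper86.RB.Base
import Pool.Agent.L5helper66.RB.C1

/-!
# A lower bound for the probability `Pn` (written by helper79 for helper86)
-/

set_option autoImplicit false

open Finset

namespace Pool.Agent.L5helper86.RB

namespace F1

lemma sum_sq (J : ℕ) : ∑ i ∈ range J, (1 : ℝ) / ((i : ℝ) + 2) ^ 2 ≤ 1 - 1 / ((J : ℝ) + 1) := by
  induction J with
  | zero => simp
  | succ J ih =>
    rw [sum_range_succ]
    have h0 : (0 : ℝ) ≤ J := Nat.cast_nonneg J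
    have h1 : (1 : ℝ) / ((J : ℝ) + 2) ^ 2 ≤ 1 / ((J : ℝ) + 1) - 1 / ((J : ℝ) + 2) := by
      rw [div_sub_div _ _ (by positivity) (by positivity), div_le_div_iff₀ (by positivity) (by positivity)]
      nlinarith
    push_cast
    have e : (J : ℝ) + 1 + 1 = J + 2 := by ring
    rw [e]
    linarith

lemma one_sub_ge {u : ℝ} (h0 : 0 ≤ u) (h1 : u ≤ 1 / 2) : Real.exp (-(u + 2 * u ^ 2)) ≤ 1 - u := by
  have hu : 0 < 1 - u := by linarith
  have h2 : (1 - u)⁻¹ ≤ Real.exp (u / (1 - u)) := by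
    have := Real.add_one_le_exp (u / (1 - u))
    have e : u / (1 - u) + 1 = (1 - u)⁻¹ := by
      field_simp
      ring
    rwa [e] at this
  have h3 : Real.exp (-(u / (1 - u))) ≤ 1 - u := by
    rw [Real.exp_neg]
    exact inv_le_of_inv_le₀ hu h2
  refine le_trans (Real.exp_le_exp.2 ?_) h3
  rw [neg_le_neg_iff, div_le_iff₀ hu]
  nlinarith [mul_nonneg h0 h0, mul_nonneg (mul_nonneg h0 h0) (sub_nonneg.2 h1)]

/-- for a prime `p ≡ 1` modulo `n` the quotient is at least two -/
lemma quot {n p : ℕ} (hn : n.Prime) (hn2 : n ≠ 2) (hp : p.Prime) (h : p % n = 1) :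
    2 ≤ p / n ∧ p = n * (p / n) + 1 := by
  have h1 : p = n * (p / n) + 1 := by
    have := Nat.div_add_mod p n
    rw [h] at this
    exact this.symm
  refine ⟨?_, h1⟩
  generalize p / n = j at h1
  by_contra hcon
  have h2 : j = 0 ∨ j = 1 := by omega
  rcases h2 with h2 | h2
  · rw [h2] at h1
    have := hp.two_le
    omega
  · rw [h2, mul_one] at h1
    have hodd := hn.odd_of_ne_two hn2
    have h3 : Even p := by
      rw [h1]
      exact hodd.add_one
    have h4 := (hp.even_iff).1 h3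
    have := hn.two_le
    omega

end F1

open F1

theorem Pn_lower {n : ℕ} (hn : n.Prime) (hn2 : n ≠ 2) (z : ℝ) :
    (2 / 3 : ℝ) * Real.exp (-2) *
      Real.exp (-(∑ p ∈ (pz z).filter (fun p => p % n = 1), ((n : ℝ) - 1) / p)) ≤ Pn z n := by
  classical
  have hn3 : 3 ≤ n := by
    have := hn.two_le
    omega
  have hn3' : (3 : ℝ) ≤ n := by exact_mod_cast hn3
  set s := (pz z).filter (fun p => p % n = 1) with hs
  have hprime : ∀ p ∈ pz z, p.Prime := fun p hp => (mem_pz.1 hp).1
  -- the sum of the squares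
  have hsq : ∑ p ∈ s, (((n : ℝ) - 1) / p) ^ 2 ≤ 1 := by
    have h1 : ∑ p ∈ s, (((n : ℝ) - 1) / p) ^ 2 ≤ ∑ p ∈ s, 1 / (((p / n : ℕ) - 2 : ℕ) + 2 : ℝ) ^ 2 := by
      refine sum_le_sum fun p hp => ?_
      rw [hs, mem_filter] at hp
      obtain ⟨h2, h3⟩ := quot hn hn2 (hprime p hp.1) hp.2
      set j := p / n with hj
      have hj' : (((j - 2 : ℕ) : ℝ) + 2) = j := by
        rw [Nat.cast_sub h2]
        push_cast
        ring
      rw [hj', ← one_div_pow]
      have hj0 : (2 : ℝ) ≤ j := by exact_mod_cast h2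
      have hpr : (p : ℝ) = n * j + 1 := by exact_mod_cast h3
      apply pow_le_pow_left₀
      · rw [hpr]
        apply div_nonneg <;> nlinarith
      · rw [hpr, div_le_div_iff₀ (by nlinarith) (by linarith)]
        nlinarith
    have h2 : ∑ p ∈ s, 1 / (((p / n : ℕ) - 2 : ℕ) + 2 : ℝ) ^ 2 =
        ∑ i ∈ s.image (fun p => p / n - 2), (1 : ℝ) / ((i : ℝ) + 2) ^ 2 := by
      rw [sum_image]
      intro p hp p' hp' he
      rw [mem_coe, hs, mem_filter] at hp hp'
      obtain ⟨a2, a3⟩ := quot hn hn2 (hprime p hp.1) hp.2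
      obtain ⟨b2, b3⟩ := quot hn hn2 (hprime p' hp'.1) hp'.2
      simp only at he
      have : p / n = p' / n := by omega
      rw [a3, b3, this]
    have h3 : s.image (fun p => p / n - 2) ⊆ range (⌊z⌋₊ + 1) := by
      intro i hi
      rw [mem_image] at hi
      obtain ⟨p, hp, rfl⟩ := hi
      rw [hs, mem_filter] at hp
      have h4 : p ≤ ⌊z⌋₊ := (Nat.le_floor_iff' (hprime p hp.1).ne_zero).2 (mem_pz.1 hp.1).2
      have h5 : p / n ≤ p := Nat.div_le_self _ _
      rw [mem_range]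
      omega
    rw [h2] at h1
    refine h1.trans ((sum_le_sum_of_subset_of_nonneg h3 fun i _ _ => by positivity).trans ?_)
    refine (sum_sq _).trans ?_
    have : (0 : ℝ) ≤ 1 / (((⌊z⌋₊ + 1 : ℕ) : ℝ) + 1) := by positivity
    linarith
  -- the factors
  have hfac : ∀ p ∈ pz z, (if p = n then (2 / 3 : ℝ) else 1) *
      (if p % n = 1 then Real.exp (-(((n : ℝ) - 1) / p + 2 * (((n : ℝ) - 1) / p) ^ 2)) else 1) ≤
      1 - (#(rts p n) : ℝ) / p := by
    intro p hp
    have hpp := hprime p hp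
    rw [card_rts hn hn2 hpp]
    by_cases h1 : p = n
    · have h2 : ¬ p % n = 1 := by rw [h1, Nat.mod_self]; omega
      rw [if_pos h1, if_neg h2, if_pos h1, mul_one]
      have h3 : (1 : ℝ) / p ≤ 1 / 3 := by
        rw [h1]
        exact one_div_le_one_div_of_le (by norm_num) hn3'
      push_cast
      linarith
    · rw [if_neg h1, if_neg h1, one_mul]
      by_cases h2 : p % n = 1
      · rw [if_pos h2, if_pos h2]
        obtain ⟨a2, a3⟩ := quot hn hn2 hpp h2
        have hj0 : (2 : ℝ) ≤ (p / n : ℕ) := by exact_mod_cast a2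
        have hpr : (p : ℝ) = n * (p / n : ℕ) + 1 := by exact_mod_cast a3
        have hc : (((n - 1 : ℕ)) : ℝ) = (n : ℝ) - 1 := by
          rw [Nat.cast_sub (by omega)]
          simp
        rw [hc]
        apply one_sub_ge
        · apply div_nonneg (by linarith) (Nat.cast_nonneg p)
        · have hp0 : (0 : ℝ) < p := by exact_mod_cast hpp.pos
          have hnj : (n : ℝ) * 2 ≤ n * (p / n : ℕ) := mul_le_mul_of_nonneg_left hj0 (by linarith)
          rw [div_le_div_iff₀ hp0 (by norm_num)]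
          linarith
      · rw [if_neg h2, if_neg h2]
        simp
  have hprod : ∏ p ∈ pz z, ((if p = n then (2 / 3 : ℝ) else 1) *
      (if p % n = 1 then Real.exp (-(((n : ℝ) - 1) / p + 2 * (((n : ℝ) - 1) / p) ^ 2)) else 1)) ≤ Pn z n := by
    unfold Pn
    apply prod_le_prod _ hfac
    intro p _
    apply mul_nonneg
    · split_ifs <;> norm_num
    · split_ifs
      · exact (Real.exp_pos _).le
      · norm_num
  refine le_trans ?_ hprod
  have hE : ∏ p ∈ pz z, (if p % n = 1 then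
      Real.exp (-(((n : ℝ) - 1) / p + 2 * (((n : ℝ) - 1) / p) ^ 2)) else 1) =
      Real.exp (∑ p ∈ s, -(((n : ℝ) - 1) / p + 2 * (((n : ℝ) - 1) / p) ^ 2)) := by
    rw [← prod_filter, ← Real.exp_sum]
  rw [prod_mul_distrib, hE]
  have h1 : (2 / 3 : ℝ) ≤ ∏ p ∈ pz z, (if p = n then (2 / 3 : ℝ) else 1) := by
    rw [Finset.prod_ite_eq']
    split_ifs <;> norm_num
  rw [mul_assoc, ← Real.exp_add]
  apply mul_le_mul h1 _ (Real.exp_pos _).le (by linarith)
  apply Real.exp_le_exp.2
  rw [sum_neg_distrib, sum_add_distrib, ← mul_sum]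
  linarith

end Pool.Agent.L5helper86.RB
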