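import Mathlib

/-!
# Windows

If the counts of every finite set of indices concentrate exponentially and the dyadic blocks have bounded
expectation, then almost surely the counts in all windows `(x, x']` with large `x` are close to their expectation.
-/

set_option autoImplicit false

namespace Pool.Agent.L5helper86.RB

open Finset MeasureTheory Filter

/-- the deterministic part -/
lemma windows_det (a e : ℕ → ℝ) (ha : ∀ n, 0 ≤ a n) (he : ∀ n, 0 ≤ e n) (C0 : ℝ) (hC0 : 0 ≤ C0)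
    (hblk : ∀ j : ℕ, ∑ n ∈ Ioc (2 ^ j) (2 ^ (j + 1)), e n ≤ C0) (j₀ : ℕ)
    (h : ∀ j ≥ j₀, ∀ i ≤ j, |∑ n ∈ Ioc (2 ^ i) (2 ^ j), a n - ∑ n ∈ Ioc (2 ^ i) (2 ^ j), e n| ≤
      2 * √((∑ n ∈ Ioc (2 ^ i) (2 ^ j), e n) * (4 * Real.log (j + 2))) + 2 * (4 * Real.log (j + 2)))
    (x x' : ℕ) (hx : 2 ^ (j₀ + 1) ≤ x) (hx3 : 3 ≤ Real.log x) (hxx : x ≤ x') :
    |∑ n ∈ Ioc x x', a n - ∑ n ∈ Ioc x x', e n| ≤
      (4 * C0 + 32) * (√((∑ n ∈ Ioc x x', e n) * Real.log (Real.log x')) + Real.log (Real.log x')) := by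
  classical
  set E : ℝ := ∑ n ∈ Ioc x x', e n with hE
  set N : ℝ := ∑ n ∈ Ioc x x', a n with hN
  have hE0 : 0 ≤ E := Finset.sum_nonneg fun n _ => he n
  have hN0 : 0 ≤ N := Finset.sum_nonneg fun n _ => ha n
  have hx0 : 0 < x := lt_of_lt_of_le (by positivity) hx
  have hx0' : 0 < x' := lt_of_lt_of_le hx0 hxx
  have hx2 : 2 ≤ x' := by
    have : 2 ^ 1 ≤ 2 ^ (j₀ + 1) := Nat.pow_le_pow_right (by norm_num) (by omega)
    omega
  -- the exponents
  obtain ⟨i, hi1, hi2⟩ : ∃ i, 2 ^ i ≤ x ∧ x < 2 ^ (i + 1) :=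
    ⟨Nat.log 2 x, Nat.pow_log_le_self 2 hx0.ne', Nat.lt_pow_succ_log_self (by norm_num) x⟩
  obtain ⟨j, hj1, hj2⟩ : ∃ j, 2 ^ j < x' ∧ x' ≤ 2 ^ (j + 1) := by
    refine ⟨Nat.clog 2 x' - 1, ?_, ?_⟩
    · exact Nat.pow_pred_clog_lt_self (by norm_num) (by omega)
    · have h1 : 0 < Nat.clog 2 x' := Nat.clog_pos (by norm_num) hx2
      rw [Nat.sub_add_cancel h1]
      exact Nat.le_pow_clog (by norm_num) x'
  have hj0 : j₀ ≤ j := by
    have h1 : 2 ^ (j₀ + 1) ≤ 2 ^ (j + 1) := (hx.trans hxx).trans hj2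
    have := (Nat.pow_le_pow_iff_right (by norm_num : 1 < 2)).1 h1
    omega
  have hij : i ≤ j + 1 := by
    have h1 : 2 ^ i ≤ 2 ^ (j + 1) := (hi1.trans hxx).trans hj2
    exact (Nat.pow_le_pow_iff_right (by norm_num : 1 < 2)).1 h1
  -- sizes
  have hl3 : 3 ≤ Real.log x' := hx3.trans (Real.log_le_log (by exact_mod_cast hx0) (by exact_mod_cast hxx))
  set LL : ℝ := Real.log (Real.log x') with hLL
  have hLL1 : 1 ≤ LL := by
    have h1 : Real.exp 1 ≤ Real.log x' := by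
      have := Real.exp_one_lt_d9
      linarith
    have h2 := Real.log_le_log (Real.exp_pos 1) h1
    rwa [Real.log_exp] at h2
  have hjlog : ((j + 1 : ℕ) : ℝ) + 2 ≤ (Real.log x') ^ 2 := by
    have h1 : Real.log ((2 ^ j : ℕ) : ℝ) ≤ Real.log x' :=
      Real.log_le_log (by positivity) (by exact_mod_cast hj1.le)
    push_cast at h1 ⊢
    rw [Real.log_pow] at h1
    have h2 : (0.69 : ℝ) ≤ Real.log 2 := by
      have := Real.log_two_gt_d9
      linarith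
    have h3 : (j : ℝ) * 0.69 ≤ Real.log x' := le_trans (by gcongr) h1
    nlinarith
  have hK : ∀ k : ℕ, k ≤ j + 1 → 4 * Real.log ((k : ℝ) + 2) ≤ 8 * LL := by
    intro k hk
    have hk' : (k : ℝ) ≤ ((j + 1 : ℕ) : ℝ) := by exact_mod_cast hk
    have h1 : Real.log ((k : ℝ) + 2) ≤ Real.log ((Real.log x') ^ 2) :=
      Real.log_le_log (by positivity) (by linarith)
    rw [Real.log_pow] at h1
    push_cast at h1
    linarith
  have hKpos : ∀ k : ℕ, 0 ≤ 4 * Real.log ((k : ℝ) + 2) := by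
    intro k
    have : 0 ≤ Real.log ((k : ℝ) + 2) := Real.log_nonneg (by
      have : (0 : ℝ) ≤ k := by positivity
      linarith)
    linarith
  -- the upper bound
  have hup : N - E ≤ 2 * C0 + (2 * √((E + 2 * C0) * (8 * LL)) + 2 * (8 * LL)) := by
    have h1 := h (j + 1) (by omega) i hij
    set E1 : ℝ := ∑ n ∈ Ioc (2 ^ i) (2 ^ (j + 1)), e n with hE1
    set N1 : ℝ := ∑ n ∈ Ioc (2 ^ i) (2 ^ (j + 1)), a n with hN1
    have h2 : N ≤ N1 := by
      refine Finset.sum_le_sum_of_subset_of_nonneg ?_ fun n _ _ => ha n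
      exact Finset.Ioc_subset_Ioc hi1 hj2
    have h3 : E1 ≤ E + 2 * C0 := by
      have h4 : Ioc (2 ^ i) (2 ^ (j + 1)) ⊆ (Ioc (2 ^ i) (2 ^ (i + 1)) ∪ Ioc x x') ∪ Ioc (2 ^ j) (2 ^ (j + 1)) := by
        intro n hn
        simp only [mem_union, mem_Ioc] at hn ⊢
        omega
      have h5 := Finset.sum_le_sum_of_subset_of_nonneg (f := e) h4 fun n _ _ => he n
      have h6 := Finset.sum_union_inter (s₁ := Ioc (2 ^ i) (2 ^ (i + 1)) ∪ Ioc x x') (s₂ := Ioc (2 ^ j) (2 ^ (j + 1))) (f := e)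
      have h7 := Finset.sum_union_inter (s₁ := Ioc (2 ^ i) (2 ^ (i + 1))) (s₂ := Ioc x x') (f := e)
      have h8 : 0 ≤ ∑ n ∈ (Ioc (2 ^ i) (2 ^ (i + 1)) ∪ Ioc x x') ∩ Ioc (2 ^ j) (2 ^ (j + 1)), e n :=
        Finset.sum_nonneg fun n _ => he n
      have h9 : 0 ≤ ∑ n ∈ Ioc (2 ^ i) (2 ^ (i + 1)) ∩ Ioc x x', e n := Finset.sum_nonneg fun n _ => he n
      have h10 := hblk i
      have h11 := hblk j
      linarith
    have h12 := (abs_le.1 h1).2
    have h13 : √(E1 * (4 * Real.log (((j + 1 : ℕ) : ℝ) + 2))) ≤ √((E + 2 * C0) * (8 * LL)) := by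
      refine Real.sqrt_le_sqrt ?_
      exact mul_le_mul h3 (hK (j + 1) le_rfl) (hKpos _) (by positivity)
    have h14 := hK (j + 1) le_rfl
    linarith
  -- the lower bound
  have hlow : E - N ≤ 2 * C0 + (2 * √((E + 2 * C0) * (8 * LL)) + 2 * (8 * LL)) := by
    set E1 : ℝ := ∑ n ∈ Ioc (2 ^ (i + 1)) (2 ^ j), e n with hE1
    set N1 : ℝ := ∑ n ∈ Ioc (2 ^ (i + 1)) (2 ^ j), a n with hN1
    have h1 : |N1 - E1| ≤ 2 * √(E1 * (4 * Real.log (j + 2))) + 2 * (4 * Real.log (j + 2)) := by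
      by_cases hc : i + 1 ≤ j
      · exact h j hj0 (i + 1) hc
      · have h2 : Ioc (2 ^ (i + 1)) (2 ^ j) = ∅ := by
          refine Finset.Ioc_eq_empty_of_le ?_
          exact Nat.pow_le_pow_right (by norm_num) (by omega)
        have h3 : E1 = 0 := by rw [hE1, h2, Finset.sum_empty]
        have h4 : N1 = 0 := by rw [hN1, h2, Finset.sum_empty]
        rw [h3, h4]
        have := hKpos j
        simp only [sub_self, abs_zero, zero_mul, Real.sqrt_zero, mul_zero, zero_add]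
        linarith
    have hsub : Ioc (2 ^ (i + 1)) (2 ^ j) ⊆ Ioc x x' := Finset.Ioc_subset_Ioc hi2.le hj1.le
    have h2 : N1 ≤ N := Finset.sum_le_sum_of_subset_of_nonneg hsub fun n _ _ => ha n
    have h2' : E1 ≤ E := Finset.sum_le_sum_of_subset_of_nonneg hsub fun n _ _ => he n
    have h3 : E ≤ E1 + 2 * C0 := by
      have h4 : Ioc x x' ⊆ (Ioc (2 ^ i) (2 ^ (i + 1)) ∪ Ioc (2 ^ (i + 1)) (2 ^ j)) ∪ Ioc (2 ^ j) (2 ^ (j + 1)) := by
        intro n hn
        simp only [mem_union, mem_Ioc] at hn ⊢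
        omega
      have h5 := Finset.sum_le_sum_of_subset_of_nonneg (f := e) h4 fun n _ _ => he n
      have h6 := Finset.sum_union_inter (s₁ := Ioc (2 ^ i) (2 ^ (i + 1)) ∪ Ioc (2 ^ (i + 1)) (2 ^ j))
        (s₂ := Ioc (2 ^ j) (2 ^ (j + 1))) (f := e)
      have h7 := Finset.sum_union_inter (s₁ := Ioc (2 ^ i) (2 ^ (i + 1))) (s₂ := Ioc (2 ^ (i + 1)) (2 ^ j)) (f := e)
      have h8 : 0 ≤ ∑ n ∈ (Ioc (2 ^ i) (2 ^ (i + 1)) ∪ Ioc (2 ^ (i + 1)) (2 ^ j)) ∩ Ioc (2 ^ j) (2 ^ (j + 1)), e n :=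
        Finset.sum_nonneg fun n _ => he n
      have h9 : 0 ≤ ∑ n ∈ Ioc (2 ^ i) (2 ^ (i + 1)) ∩ Ioc (2 ^ (i + 1)) (2 ^ j), e n :=
        Finset.sum_nonneg fun n _ => he n
      have h10 := hblk i
      have h11 := hblk j
      linarith
    have h12 := (abs_le.1 h1).1
    have h13 : √(E1 * (4 * Real.log ((j : ℝ) + 2))) ≤ √((E + 2 * C0) * (8 * LL)) := by
      refine Real.sqrt_le_sqrt ?_
      exact mul_le_mul (by linarith) (hK j (by omega)) (hKpos _) (by positivity)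
    have h14 := hK j (by omega)
    linarith
  -- the square root
  have hsq : √((E + 2 * C0) * (8 * LL)) ≤ 3 * √(E * LL) + (C0 + 8 * LL) := by
    have h0 : 0 ≤ √(E * LL) := Real.sqrt_nonneg _
    have h1 : √(E * LL) ^ 2 = E * LL := Real.sq_sqrt (by positivity)
    have hp : 0 ≤ 3 * √(E * LL) + (C0 + 8 * LL) := by positivity
    rw [Real.sqrt_le_left hp]
    have h2 : 0 ≤ √(E * LL) * (C0 + 8 * LL) := by positivity
    have h3 : 0 ≤ E * LL := by positivity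
    nlinarith [sq_nonneg C0, sq_nonneg LL]
  have hs0 : 0 ≤ √(E * LL) := Real.sqrt_nonneg _
  have hfin : 2 * C0 + (2 * √((E + 2 * C0) * (8 * LL)) + 2 * (8 * LL)) ≤ (4 * C0 + 32) * (√(E * LL) + LL) := by
    have h1 : 2 * C0 + (2 * √((E + 2 * C0) * (8 * LL)) + 2 * (8 * LL)) ≤
        4 * C0 + 6 * √(E * LL) + 32 * LL := by linarith
    have h2 : 4 * C0 ≤ 4 * C0 * LL := le_mul_of_one_le_right (by positivity) hLL1
    nlinarith [mul_nonneg hC0 hs0]
  rw [abs_le]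
  constructor
  · linarith
  · linarith

theorem windows {Ω : Type} [MeasurableSpace Ω] (P : Measure Ω) [IsProbabilityMeasure P] (A : ℕ → Set Ω)
    (hch : ∀ (s : Finset ℕ) (K : ℝ), 0 ≤ K →
      P.real {ω | 2 * √((∑ n ∈ s, P.real (A n)) * K) + 2 * K ≤
        |∑ n ∈ s, (A n).indicator (fun _ => (1 : ℝ)) ω - ∑ n ∈ s, P.real (A n)|} ≤ 4 * Real.exp (-K))
    (C0 : ℝ) (hC0 : 0 ≤ C0) (hblk : ∀ j : ℕ, ∑ n ∈ Ioc (2 ^ j) (2 ^ (j + 1)), P.real (A n) ≤ C0) :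
    ∃ C : ℝ, 0 < C ∧ ∀ᵐ ω ∂P, ∀ᶠ x : ℕ in atTop, ∀ x' : ℕ, x ≤ x' →
      |∑ n ∈ Ioc x x', (A n).indicator (fun _ => (1 : ℝ)) ω - ∑ n ∈ Ioc x x', P.real (A n)| ≤
        C * (√((∑ n ∈ Ioc x x', P.real (A n)) * Real.log (Real.log x')) + Real.log (Real.log x')) := by
  classical
  refine ⟨4 * C0 + 32, by positivity, ?_⟩
  -- the bad events
  let B : ℕ → ℕ → Set Ω := fun i j =>
    {ω | 2 * √((∑ n ∈ Ioc (2 ^ i) (2 ^ j), P.real (A n)) * (4 * Real.log (j + 2))) + 2 * (4 * Real.log (j + 2)) ≤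
        |∑ n ∈ Ioc (2 ^ i) (2 ^ j), (A n).indicator (fun _ => (1 : ℝ)) ω - ∑ n ∈ Ioc (2 ^ i) (2 ^ j), P.real (A n)|}
  let U : ℕ → Set Ω := fun j => ⋃ i ∈ range (j + 1), B i j
  have hlog : ∀ j : ℕ, 0 ≤ 4 * Real.log ((j : ℝ) + 2) := by
    intro j
    have : 0 ≤ Real.log ((j : ℝ) + 2) := Real.log_nonneg (by
      have : (0 : ℝ) ≤ j := by positivity
      linarith)
    linarith
  have hB : ∀ i j, P.real (B i j) ≤ 4 * ((j : ℝ) + 2) ^ (-4 : ℝ) := by
    intro i j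
    refine (hch (Ioc (2 ^ i) (2 ^ j)) (4 * Real.log (j + 2)) (hlog j)).trans ?_
    rw [Real.rpow_def_of_pos (by positivity)]
    refine le_of_eq ?_
    congr 2
    ring
  have hU : ∀ j, P.real (U j) ≤ 4 * ((j : ℝ) + 2) ^ (-3 : ℝ) := by
    intro j
    have h1 : P.real (U j) ≤ ∑ i ∈ range (j + 1), P.real (B i j) := measureReal_biUnion_finset_le _ _
    have h2 : ∑ i ∈ range (j + 1), P.real (B i j) ≤ ∑ i ∈ range (j + 1), 4 * ((j : ℝ) + 2) ^ (-4 : ℝ) :=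
      Finset.sum_le_sum fun i _ => hB i j
    rw [Finset.sum_const, card_range, nsmul_eq_mul] at h2
    push_cast at h2
    have h3 : ((j : ℝ) + 2) ^ (-3 : ℝ) = ((j : ℝ) + 2) ^ (-4 : ℝ) * ((j : ℝ) + 2) := by
      rw [← Real.rpow_add_one (by positivity)]
      norm_num
    have h4 : 0 ≤ ((j : ℝ) + 2) ^ (-4 : ℝ) := by positivity
    rw [h3]
    nlinarith
  have hsum : ∑' j, P (U j) ≠ ⊤ := by
    have h1 : Summable fun j : ℕ => P.real (U j) := by
      refine Summable.of_nonneg_of_le (fun j => measureReal_nonneg) hU ?_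
      have h2 : Summable fun n : ℕ => ((n : ℝ)) ^ (-3 : ℝ) := Real.summable_nat_rpow.2 (by norm_num)
      have h3 := (summable_nat_add_iff 2).2 h2
      refine (h3.mul_left 4).congr fun j => ?_
      push_cast
      rfl
    have h4 : ∀ j, P (U j) = ENNReal.ofReal (P.real (U j)) := fun j => by
      rw [measureReal_def, ENNReal.ofReal_toReal (measure_ne_top P _)]
    simp_rw [h4]
    exact h1.tsum_ofReal_ne_top
  filter_upwards [ae_eventually_notMem hsum] with ω hω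
  obtain ⟨j₀, hj₀⟩ := eventually_atTop.1 hω
  have hlogx : ∀ᶠ x : ℕ in atTop, 3 ≤ Real.log (x : ℝ) :=
    (Real.tendsto_log_atTop.comp tendsto_natCast_atTop_atTop).eventually_ge_atTop 3
  filter_upwards [hlogx, eventually_ge_atTop (2 ^ (j₀ + 1))] with x hx3 hx x' hxx
  refine windows_det (fun n => (A n).indicator (fun _ => (1 : ℝ)) ω) (fun n => P.real (A n))
    (fun n => Set.indicator_nonneg (fun _ _ => zero_le_one) ω) (fun n => measureReal_nonneg) C0 hC0 hblk j₀ ?_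
    x x' hx hx3 hxx
  intro j hj i hi
  by_contra hcon
  refine hj₀ j hj ?_
  simp only [U, Set.mem_iUnion, mem_range]
  exact ⟨i, by omega, (not_le.1 hcon).le⟩

end Pool.Agent.L5helper86.RB
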